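import Pool.Agent.Helper355.MP7348.Net

set_option autoImplicit false

namespace Pool.Agent.Helper355.MP7348

open Finset

variable {D N : ℕ} (G : Net D N)

namespace Net

/-- size of the cut between `t` and `t+1` -/
def c (t : ℕ) : ℕ := ∑ a ∈ range (t + 1), ∑ b ∈ Ico (t + 1) (N + 1), G.A a b

/-- number of edges from `{0..t}` to `j` -/
def E (t j : ℕ) : ℕ := ∑ a ∈ range (t + 1), G.A a j

/-- number of edges from `v` upwards -/
def up (v : ℕ) : ℕ := ∑ b ∈ Ico (v + 1) (N + 1), G.A v b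

/-- number of edges passing the vertex `t` -/
def pass (t : ℕ) : ℕ := ∑ a ∈ range t, ∑ b ∈ Ico (t + 1) (N + 1), G.A a b

/-- flow into `t+1` from below -/
noncomputable def Inn (t : ℕ) : ℝ := ∑ a ∈ range (t + 1), (G.A a (t + 1) : ℝ) * (G.x (t + 1) - G.x a)

/-- flow out of `v` upwards -/
noncomputable def Out (v : ℕ) : ℝ := ∑ b ∈ Ico (v + 1) (N + 1), (G.A v b : ℝ) * (G.x b - G.x v)

theorem c_eq_pass_up (t : ℕ) : G.c t = G.pass t + G.up t := by
  unfold c pass up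
  rw [sum_range_succ]

theorem c_eq_E_pass (t : ℕ) (h : t + 1 ≤ N) : G.c t = G.E t (t + 1) + G.pass (t + 1) := by
  unfold c pass E
  rw [← sum_add_distrib]
  refine sum_congr rfl fun a _ => ?_
  rw [sum_eq_sum_Ico_succ_bot (by omega)]

theorem E_up (t : ℕ) (h : t + 1 ≤ N) : G.E t (t + 1) + G.up (t + 1) = D := by
  have h1 := G.deg (t + 1) (by omega) h
  refine Eq.trans ?_ h1
  unfold E up
  rw [range_eq_Ico, range_eq_Ico, ← sum_Ico_consecutive _ (show 0 ≤ t + 1 by omega) (show t + 1 ≤ N + 1 by omega)]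
  rw [sum_eq_sum_Ico_succ_bot (a := t + 1) (b := N + 1) (by omega), G.diag, zero_add]
  congr 1
  exact sum_congr rfl fun a _ => G.symm _ _

theorem c_succ (t : ℕ) (h : t + 1 ≤ N) : G.c (t + 1) + 2 * G.E t (t + 1) = G.c t + D := by
  have h1 := G.c_eq_pass_up (t + 1)
  have h2 := G.c_eq_E_pass t h
  have h3 := G.E_up t h
  omega

theorem c_top : G.c N = 0 := by
  unfold c
  simp

theorem c_even (hD : Even D) (t : ℕ) (h : t ≤ N) : Even (G.c t) := by
  obtain ⟨k, hk⟩ := Nat.exists_eq_add_of_le h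
  induction k generalizing t with
  | zero =>
    have : t = N := by omega
    subst this
    rw [G.c_top]; exact Even.zero
  | succ k ih =>
    have h1 := ih (t + 1) (by omega) (by omega)
    have h2 := G.c_succ t (by omega)
    obtain ⟨r, hr⟩ := h1
    obtain ⟨d, hd⟩ := hD
    refine ⟨r + G.E t (t + 1) - d, by omega⟩

theorem c_pos (t : ℕ) (h1 : 1 ≤ t) (h2 : t < N) : 1 ≤ G.c t := by
  obtain ⟨a, b, ha, hat, htb, hb, hab⟩ := G.conn t h1 h2
  unfold c
  have hb' : b ∈ Ico (t + 1) (N + 1) := by simp; omega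
  have ha' : a ∈ range (t + 1) := by simp; omega
  calc 1 = G.A a b := hab.symm
    _ ≤ ∑ b ∈ Ico (t + 1) (N + 1), G.A a b := single_le_sum (fun _ _ => Nat.zero_le _) hb'
    _ ≤ _ := single_le_sum (f := fun a => ∑ b ∈ Ico (t + 1) (N + 1), G.A a b)
        (fun _ _ => Nat.zero_le _) ha'

theorem gap_nonneg (t : ℕ) (h : t + 1 ≤ N) : 0 ≤ G.x (t + 1) - G.x t := by
  have := G.mono t (t + 1) (by omega) h
  linarith

/-- block estimate -/
theorem block (S T : Finset ℕ) (m : ℝ) (h : ∀ a ∈ S, ∀ b ∈ T, m ≤ G.x b - G.x a) :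
    ((∑ a ∈ S, ∑ b ∈ T, G.A a b : ℕ) : ℝ) * m ≤
      ∑ a ∈ S, ∑ b ∈ T, (G.A a b : ℝ) * (G.x b - G.x a) := by
  push_cast
  rw [sum_mul]
  refine sum_le_sum fun a ha => ?_
  rw [sum_mul]
  refine sum_le_sum fun b hb => ?_
  exact mul_le_mul_of_nonneg_left (h a ha b hb) (Nat.cast_nonneg _)

theorem row (S : Finset ℕ) (b : ℕ) (m : ℝ) (h : ∀ a ∈ S, m ≤ G.x b - G.x a) :
    ((∑ a ∈ S, G.A a b : ℕ) : ℝ) * m ≤ ∑ a ∈ S, (G.A a b : ℝ) * (G.x b - G.x a) := by
  push_cast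
  rw [sum_mul]
  refine sum_le_sum fun a ha => ?_
  exact mul_le_mul_of_nonneg_left (h a ha) (Nat.cast_nonneg _)

theorem col (T : Finset ℕ) (a : ℕ) (m : ℝ) (h : ∀ b ∈ T, m ≤ G.x b - G.x a) :
    ((∑ b ∈ T, G.A a b : ℕ) : ℝ) * m ≤ ∑ b ∈ T, (G.A a b : ℝ) * (G.x b - G.x a) := by
  push_cast
  rw [sum_mul]
  refine sum_le_sum fun b hb => ?_
  exact mul_le_mul_of_nonneg_left (h b hb) (Nat.cast_nonneg _)

theorem J_nonneg (t : ℕ) : 0 ≤ G.J t := by
  unfold J
  refine sum_nonneg fun a ha => sum_nonneg fun b hb => ?_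
  simp only [mem_range, mem_Ico] at ha hb
  have := G.mono a b (by omega) (by omega)
  exact mul_nonneg (Nat.cast_nonneg _) (by linarith)

/-- basic three gap inequality; `t = s + 1` -/
theorem three_gap (s : ℕ) (h : s + 3 ≤ N) :
    (G.c (s + 1) : ℝ) * (G.x (s + 2) - G.x (s + 1)) + (G.pass (s + 1) : ℝ) * (G.x (s + 1) - G.x s)
      + (G.pass (s + 2) : ℝ) * (G.x (s + 3) - G.x (s + 2)) ≤ G.J (s + 1) := by
  have hmon : ∀ a b, a ≤ b → b ≤ N → G.x a ≤ G.x b := G.mono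
  have hJ : G.J (s + 1) = (∑ a ∈ range (s + 1), ∑ b ∈ Ico (s + 3) (N + 1), (G.A a b : ℝ) * (G.x b - G.x a))
      + (∑ a ∈ range (s + 1), (G.A a (s + 2) : ℝ) * (G.x (s + 2) - G.x a))
      + (∑ b ∈ Ico (s + 3) (N + 1), (G.A (s + 1) b : ℝ) * (G.x b - G.x (s + 1)))
      + (G.A (s + 1) (s + 2) : ℝ) * (G.x (s + 2) - G.x (s + 1)) := by
    unfold J
    rw [sum_range_succ]
    rw [sum_eq_sum_Ico_succ_bot (a := s + 1 + 1) (b := N + 1) (by omega)]
    have : ∀ a ∈ range (s + 1), ∑ b ∈ Ico (s + 1 + 1) (N + 1), (G.A a b : ℝ) * (G.x b - G.x a)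
        = (G.A a (s + 2) : ℝ) * (G.x (s + 2) - G.x a) +
          ∑ b ∈ Ico (s + 3) (N + 1), (G.A a b : ℝ) * (G.x b - G.x a) := by
      intro a _
      rw [sum_eq_sum_Ico_succ_bot (a := s + 1 + 1) (b := N + 1) (by omega)]
    rw [sum_congr rfl this, sum_add_distrib]
    ring
  have hc : G.c (s + 1) = (∑ a ∈ range (s + 1), ∑ b ∈ Ico (s + 3) (N + 1), G.A a b)
      + (∑ a ∈ range (s + 1), G.A a (s + 2))
      + (∑ b ∈ Ico (s + 3) (N + 1), G.A (s + 1) b) + G.A (s + 1) (s + 2) := by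
    unfold c
    rw [sum_range_succ]
    rw [sum_eq_sum_Ico_succ_bot (a := s + 1 + 1) (b := N + 1) (by omega)]
    have : ∀ a ∈ range (s + 1), ∑ b ∈ Ico (s + 1 + 1) (N + 1), G.A a b
        = G.A a (s + 2) + ∑ b ∈ Ico (s + 3) (N + 1), G.A a b := by
      intro a _
      rw [sum_eq_sum_Ico_succ_bot (a := s + 1 + 1) (b := N + 1) (by omega)]
    rw [sum_congr rfl this, sum_add_distrib]
    ring
  have hp1 : G.pass (s + 1) = (∑ a ∈ range (s + 1), ∑ b ∈ Ico (s + 3) (N + 1), G.A a b)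
      + (∑ a ∈ range (s + 1), G.A a (s + 2)) := by
    unfold pass
    rw [← sum_add_distrib]
    refine sum_congr rfl fun a _ => ?_
    rw [sum_eq_sum_Ico_succ_bot (a := s + 1 + 1) (b := N + 1) (by omega)]
    ring
  have hp2 : G.pass (s + 2) = (∑ a ∈ range (s + 1), ∑ b ∈ Ico (s + 3) (N + 1), G.A a b)
      + (∑ b ∈ Ico (s + 3) (N + 1), G.A (s + 1) b) := by
    unfold pass
    rw [sum_range_succ]
  have b1 := G.block (range (s + 1)) (Ico (s + 3) (N + 1)) (G.x (s + 3) - G.x s) (by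
    intro a ha b hb
    simp only [mem_range, mem_Ico] at ha hb
    have := hmon a s (by omega) (by omega)
    have := hmon (s + 3) b (by omega) (by omega)
    linarith)
  have b2 := G.row (range (s + 1)) (s + 2) (G.x (s + 2) - G.x s) (by
    intro a ha
    simp only [mem_range] at ha
    have := hmon a s (by omega) (by omega)
    linarith)
  have b3 := G.col (Ico (s + 3) (N + 1)) (s + 1) (G.x (s + 3) - G.x (s + 1)) (by
    intro b hb
    simp only [mem_Ico] at hb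
    have := hmon (s + 3) b (by omega) (by omega)
    linarith)
  rw [hJ, hc, hp1, hp2]
  set P := (∑ a ∈ range (s + 1), ∑ b ∈ Ico (s + 3) (N + 1), G.A a b)
  set Q := (∑ a ∈ range (s + 1), G.A a (s + 2))
  set R := (∑ b ∈ Ico (s + 3) (N + 1), G.A (s + 1) b)
  push_cast
  nlinarith [b1, b2, b3]

/-- one gap inequality -/
theorem one_gap (t : ℕ) (h : t + 1 ≤ N) : (G.c t : ℝ) * (G.x (t + 1) - G.x t) ≤ G.J t := by
  have := G.block (range (t + 1)) (Ico (t + 1) (N + 1)) (G.x (t + 1) - G.x t) (by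
    intro a ha b hb
    simp only [mem_range, mem_Ico] at ha hb
    have := G.mono a t (by omega) (by omega)
    have := G.mono (t + 1) b (by omega) (by omega)
    linarith)
  exact this

theorem Out_le_Inn (t : ℕ) (h : t + 1 ≤ N) : G.Out (t + 1) ≤ G.Inn t := by
  have h1 := G.flow (t + 1) (by omega) h
  rw [range_eq_Ico, ← sum_Ico_consecutive _ (show 0 ≤ t + 1 by omega) (show t + 1 ≤ N + 1 by omega),
    sum_eq_sum_Ico_succ_bot (a := t + 1) (b := N + 1) (by omega), G.diag] at h1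
  have h2 : ∑ i ∈ Ico 0 (t + 1), (G.A (t + 1) i : ℝ) * (G.x (t + 1) - G.x i) = G.Inn t := by
    unfold Inn
    rw [range_eq_Ico]
    exact sum_congr rfl fun a _ => by rw [G.symm]
  have h3 : ∑ k ∈ Ico (t + 1 + 1) (N + 1), (G.A (t + 1) k : ℝ) * (G.x (t + 1) - G.x k)
      = - G.Out (t + 1) := by
    unfold Out
    rw [← sum_neg_distrib]
    exact sum_congr rfl fun a _ => by ring
  rw [h2, h3] at h1
  simp at h1
  linarith

theorem J_succ (t : ℕ) (h : t + 1 ≤ N) : G.J (t + 1) + G.Inn t = G.J t + G.Out (t + 1) := by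
  unfold J Inn Out
  rw [sum_range_succ _ (t + 1)]
  have : ∀ a ∈ range (t + 1), ∑ b ∈ Ico (t + 1) (N + 1), (G.A a b : ℝ) * (G.x b - G.x a)
      = (G.A a (t + 1) : ℝ) * (G.x (t + 1) - G.x a) +
        ∑ b ∈ Ico (t + 1 + 1) (N + 1), (G.A a b : ℝ) * (G.x b - G.x a) := by
    intro a _
    rw [sum_eq_sum_Ico_succ_bot (a := t + 1) (b := N + 1) (by omega)]
  rw [sum_congr rfl this, sum_add_distrib]
  ring

theorem J_anti (t : ℕ) (h : t + 1 ≤ N) : G.J (t + 1) ≤ G.J t := by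
  have := G.J_succ t h
  have := G.Out_le_Inn t h
  linarith

theorem J_anti' (s t : ℕ) (hst : s ≤ t) (h : t ≤ N) : G.J t ≤ G.J s := by
  obtain ⟨k, rfl⟩ := Nat.exists_eq_add_of_le hst
  induction k with
  | zero => exact le_refl _
  | succ k ih => exact (G.J_anti (s + k) (by omega)).trans (ih (by omega) (by omega))

theorem J_ge_of (t s : ℕ) (v : ℝ) (h : v ≤ G.J t) (hs : s ≤ t) (ht : t ≤ N) : v ≤ G.J s :=
  h.trans (G.J_anti' s t hs ht)

/-- the number of up-neighbours beyond `v + k` -/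
theorem up_count (v k : ℕ) (hv : 1 ≤ v) (h : v + k ≤ N) :
    G.up v ≤ k + ∑ b ∈ Ico (v + k + 1) (N + 1), G.A v b := by
  unfold up
  rw [← sum_Ico_consecutive _ (show v + 1 ≤ v + k + 1 by omega) (show v + k + 1 ≤ N + 1 by omega)]
  have : ∑ b ∈ Ico (v + 1) (v + k + 1), G.A v b ≤ ∑ b ∈ Ico (v + 1) (v + k + 1), 1 := by
    refine sum_le_sum fun b hb => ?_
    simp only [mem_Ico] at hb
    exact G.simple v b hv (by omega)
  simp at this
  omega

/-- star inequality: the two largest terms -/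
theorem star_two (v m : ℕ) (hv : 1 ≤ v) (hm : 2 ≤ m) (h : v + m ≤ N) (hup : m ≤ G.up v) :
    (G.x (v + m) - G.x v) + (G.x (v + m - 1) - G.x v) ≤ G.Out v := by
  have h1 := G.up_count v (m - 1) hv (by omega)
  have h2 := G.up_count v (m - 2) hv (by omega)
  have e1 : v + (m - 1) + 1 = v + m := by omega
  have e2 : v + (m - 2) + 1 = v + m - 1 := by omega
  rw [e1] at h1
  rw [e2] at h2
  have hOut : G.Out v = ∑ b ∈ Ico (v + 1) (v + m - 1), (G.A v b : ℝ) * (G.x b - G.x v) +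
      ((G.A v (v + m - 1) : ℝ) * (G.x (v + m - 1) - G.x v) +
      ∑ b ∈ Ico (v + m) (N + 1), (G.A v b : ℝ) * (G.x b - G.x v)) := by
    unfold Out
    rw [← sum_Ico_consecutive _ (show v + 1 ≤ v + m - 1 by omega) (show v + m - 1 ≤ N + 1 by omega)]
    rw [sum_eq_sum_Ico_succ_bot (a := v + m - 1) (b := N + 1) (by omega)]
    rw [show v + m - 1 + 1 = v + m by omega]
  rw [sum_eq_sum_Ico_succ_bot (a := v + m - 1) (b := N + 1) (by omega),
    show v + m - 1 + 1 = v + m by omega] at h2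
  have h3 : 0 ≤ ∑ b ∈ Ico (v + 1) (v + m - 1), (G.A v b : ℝ) * (G.x b - G.x v) := by
    refine sum_nonneg fun b hb => ?_
    simp only [mem_Ico] at hb
    have := G.mono v b (by omega) (by omega)
    exact mul_nonneg (Nat.cast_nonneg _) (by linarith)
  have h4 := G.col (Ico (v + m) (N + 1)) v (G.x (v + m) - G.x v) (by
    intro b hb
    simp only [mem_Ico] at hb
    have := G.mono (v + m) b (by omega) (by omega)
    linarith)
  have h5 := G.mono v (v + m - 1) (by omega) (by omega)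
  have h6 := G.mono (v + m - 1) (v + m) (by omega) (by omega)
  have h7 : (1 : ℝ) ≤ ((∑ b ∈ Ico (v + m) (N + 1), G.A v b : ℕ) : ℝ) := by
    exact_mod_cast (by omega : 1 ≤ ∑ b ∈ Ico (v + m) (N + 1), G.A v b)
  have h8 : (2 : ℝ) ≤ (G.A v (v + m - 1) : ℝ) + ((∑ b ∈ Ico (v + m) (N + 1), G.A v b : ℕ) : ℝ) := by
    exact_mod_cast (by omega : 2 ≤ G.A v (v + m - 1) + ∑ b ∈ Ico (v + m) (N + 1), G.A v b)
  rw [hOut]
  nlinarith [h3, h4, h5, h6, h7, h8, mul_nonneg (sub_nonneg.2 h7) (sub_nonneg.2 h6),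
    mul_nonneg (sub_nonneg.2 h8) (sub_nonneg.2 h5)]

end Net

end Pool.Agent.Helper355.MP7348
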