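import Mathlib

set_option autoImplicit false

namespace Pool.Agent.Helper355.MP7348

/-- W0, large `D` -/
theorem real_W0_large (D c d c1 g0 g Y J : ℝ) (hD : 13 ≤ D) (hc : 4 ≤ c) (hc2 : c ≤ D - 2)
    (hc1 : 4 ≤ c1) (hd : c1 + 2 * d = c + D) (hg0 : 0 ≤ g0) (hg : 0 ≤ g) (hY : 0 ≤ Y)
    (h1 : c * g0 ≤ J) (h2 : c1 * g ≤ J)
    (h3 : (2 * D - 2 - c) * Y ≤ 2 * J + g / 2 * d) :
    (D - 2) * (g0 + g + 2 * Y) ≤ (D - 1) * J := by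
  have a1 : 4 * g0 ≤ J := by nlinarith
  have a2 : 4 * g ≤ J := by nlinarith
  have a3 : D * Y ≤ (2 * D - 2 - c) * Y := by nlinarith
  have a4 : 4 * (g * d) ≤ (D - 3) * J := by
    have : 2 * d ≤ 2 * D - 6 := by linarith
    nlinarith
  have a5 : 8 * (D * Y) ≤ (D + 13) * J := by nlinarith
  have hJ : 0 ≤ J := by linarith
  nlinarith

/-- W0, middle region -/
theorem real_W0_mid (D c d c1 g0 g Y J : ℝ) (hD : 10 ≤ D) (hc : D ≤ c) (hc2 : c ≤ 2 * D - 10)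
    (hc1 : D ≤ c1) (hd : c1 + 2 * d = c + D) (hg0 : 0 ≤ g0) (hg : 0 ≤ g) (hY : 0 ≤ Y)
    (h1 : c * g0 ≤ J) (h2 : c1 * g ≤ J)
    (h3 : (2 * D - 2 - c) * Y ≤ 2 * J + g / 2 * d) :
    (D - 2) * (g0 + g + 2 * Y) ≤ (D - 1) * J := by
  have a1 : D * g0 ≤ J := by nlinarith
  have a2 : D * g ≤ J := by nlinarith
  have a3 : 8 * Y ≤ (2 * D - 2 - c) * Y := by nlinarith
  have hJ : 0 ≤ J := by nlinarith
  have a4 : g * d ≤ J := by
    have : d ≤ D - 5 := by linarith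
    nlinarith
  have a5 : 16 * Y ≤ 5 * J := by nlinarith
  nlinarith

/-- W1, `c ≥ 6` -/
theorem real_W1_six (D c d c1 gm g0 g Y J : ℝ) (hD : 8 ≤ D) (hc : 6 ≤ c) (hc2 : c ≤ D - 2)
    (hc1 : 4 ≤ c1) (hdc : d ≤ c) (hgm : 0 ≤ gm) (hg0 : 0 ≤ g0) (hg : 0 ≤ g) (hY : 0 ≤ Y)
    (h1 : c * (2 * g0 + gm) + 2 * (c - d) * g ≤ 2 * J) (h2 : c1 * g ≤ J)
    (h3 : (2 * D - 2 - c) * Y ≤ 2 * J + g / 2 * d) :
    (D - 2) * (gm + 2 * g0 + g + 2 * Y) ≤ D * J := by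
  have hJ : 0 ≤ J := by nlinarith
  have a2 : 4 * g ≤ J := by nlinarith
  have a3 : D * Y ≤ (2 * D - 2 - c) * Y := by nlinarith
  have a1 : 3 * (2 * g0 + gm) ≤ J := by
    nlinarith [mul_nonneg (sub_nonneg.2 hdc) hg,
      mul_nonneg (sub_nonneg.2 hc) (by linarith : 0 ≤ 2 * g0 + gm)]
  have a4 : g * d ≤ g * (D - 2) := mul_le_mul_of_nonneg_left (by linarith) hg
  have a5 : 8 * (D * Y) ≤ (14 + D) * J := by nlinarith
  have key : D * ((D - 2) * (gm + 2 * g0 + g + 2 * Y)) ≤ D * (D * J) := by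
    have b1 : gm + 2 * g0 + g ≤ 7 / 12 * J := by linarith
    have b2 : (D - 2) * D * (gm + 2 * g0 + g) ≤ (D - 2) * D * (7 / 12 * J) :=
      mul_le_mul_of_nonneg_left b1 (by nlinarith)
    have b3 : (D - 2) * (8 * (D * Y)) ≤ (D - 2) * ((14 + D) * J) :=
      mul_le_mul_of_nonneg_left a5 (by linarith)
    have b4 : 0 ≤ (D ^ 2 - 11 * D + 42) * J := mul_nonneg (by nlinarith [sq_nonneg (D - 11 / 2)]) hJ
    nlinarith
  exact le_of_mul_le_mul_left key (by linarith)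

/-- W1, `c = 4`, large `D` -/
theorem real_W1_four (D d c1 gm g0 g Y J : ℝ) (hD : 14 ≤ D)
    (hd : c1 + 2 * d = 4 + D) (hd4 : d ≤ 4) (hgm : 0 ≤ gm) (hg0 : 0 ≤ g0) (hg : 0 ≤ g)
    (hY : 0 ≤ Y)
    (h1 : 4 * (2 * g0 + gm) + 2 * (4 - d) * g ≤ 2 * J) (h2 : c1 * g ≤ J)
    (h3 : (2 * D - 2 - 4) * Y ≤ 2 * J + g / 2 * d) :
    (D - 2) * (gm + 2 * g0 + g + 2 * Y) ≤ D * J := by
  have e1 : 10 ≤ c1 := by linarith
  have a2 : 10 * g ≤ J := by nlinarith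
  have hJ : 0 ≤ J := by linarith
  have a1 : 2 * (2 * g0 + gm) ≤ J := by
    nlinarith [mul_nonneg (sub_nonneg.2 hd4) hg]
  have a4 : g * d ≤ g * 4 := mul_le_mul_of_nonneg_left (by linarith) hg
  have a5 : (2 * D - 6) * Y ≤ 22 / 10 * J := by nlinarith
  have a6 : 22 * Y ≤ 22 / 10 * J := by nlinarith
  nlinarith

/-- W0, small `D` -/
theorem real_W0_small (D c d c1 : ℕ) (g0 g Y J : ℝ) (hD6 : 6 ≤ D) (hD12 : D ≤ 12) (hDe : Even D)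
    (hce : Even c) (hc : 4 ≤ c) (hc2 : c ≤ D - 2)
    (hc1 : 4 ≤ c1) (hd : c1 + 2 * d = c + D) (hdc : d ≤ c) (hg0 : 0 ≤ g0) (hg : 0 ≤ g)
    (h1 : (c : ℝ) * g0 + ((c : ℝ) - (d : ℝ)) * g ≤ J)
    (h2 : ((c : ℝ) - (d : ℝ)) * g0 + (c1 : ℝ) * g ≤ J)
    (h3 : (2 * (D : ℝ) - 2 - (c : ℝ)) * Y ≤ 2 * J + g / 2 * (d : ℝ)) :
    ((D : ℝ) - 2) * (g0 + g + 2 * Y) ≤ ((D : ℝ) - 1) * J := by
  obtain ⟨D', hD'⟩ := hDe
  obtain ⟨c', hc'⟩ := hce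
  have b1 : 3 ≤ D' := by omega
  have b2 : D' ≤ 6 := by omega
  have b3 : 2 ≤ c' := by omega
  have hc1' : c1 = c + D - 2 * d := by omega
  subst hc1'
  interval_cases D'
  all_goals
    subst hD'
    have b4 : c' ≤ 5 := by omega
    interval_cases c'
    all_goals
      subst hc'
      first
      | (exfalso; omega)
      | skip
  all_goals
    have b5 : d ≤ 10 := by omega
    interval_cases d
    all_goals
      first
      | (exfalso; omega)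
      | (norm_num at h1 h2 h3 ⊢; linarith)

/-- W1, `c = 4`, small `D` -/
theorem real_W1_small (D d c1 : ℕ) (gm g0 g Y J : ℝ) (hD6 : 6 ≤ D) (hD12 : D ≤ 12) (hDe : Even D)
    (hc1 : 4 ≤ c1) (hd : c1 + 2 * d = 4 + D) (hdc : d ≤ 4) (hgm : 0 ≤ gm) (hg0 : 0 ≤ g0)
    (hg : 0 ≤ g)
    (h1 : 4 * (2 * g0 + gm) + 2 * (4 - (d : ℝ)) * g ≤ 2 * J) (h2 : (c1 : ℝ) * g ≤ J)
    (h3 : (2 * (D : ℝ) - 2 - 4) * Y ≤ 2 * J + g / 2 * (d : ℝ)) :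
    ((D : ℝ) - 2) * (gm + 2 * g0 + g + 2 * Y) ≤ (D : ℝ) * J := by
  obtain ⟨D', hD'⟩ := hDe
  have b1 : 3 ≤ D' := by omega
  have b2 : D' ≤ 6 := by omega
  have hc1' : c1 = 4 + D - 2 * d := by omega
  subst hc1'
  interval_cases D'
  all_goals
    subst hD'
    interval_cases d
    all_goals
      first
      | (exfalso; omega)
      | (norm_num at h1 h2 h3 ⊢; linarith)

end Pool.Agent.Helper355.MP7348
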