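import Pool.Agent.Helper355.MP7348.Pair
import Pool.Agent.Helper355.MP7348.Real

set_option autoImplicit false

namespace Pool.Agent.Helper355.MP7348

open Finset

variable {D N : ℕ} (G : Net D N)

namespace Net

/-- Case W0, start `r + 1`, `n = D - 1`. -/
theorem caseW0 (r : ℕ) (hD : 6 ≤ D) (hDe : Even D) (h : r + D + 6 ≤ N)
    (h4 : 4 ≤ G.c (r + 1)) (h5 : 4 ≤ G.c (r + 2))
    (hreg : G.c (r + 1) ≤ D - 2 ∨
      (10 ≤ D ∧ D ≤ G.c (r + 1) ∧ G.c (r + 1) + 10 ≤ 2 * D ∧ D ≤ G.c (r + 2))) :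
    2 * ((D : ℝ) - 2) * ((G.x (r + D) + G.x (r + D + 1)) / 2 - (G.x (r + 1) + G.x (r + 2)) / 2)
      ≤ ((D : ℝ) - 1) * G.J (r + 1) := by
  have hDR : (6 : ℝ) ≤ (D : ℝ) := by exact_mod_cast hD
  have t1 := G.three_gap r (by omega)
  have t2 := G.three_gap (r + 1) (by omega)
  have pr := G.pair (r + 1) (by omega) (by omega)
  have e1 := G.c_eq_E_pass (r + 1) (by omega)
  have e2 := G.c_succ (r + 1) (by omega)
  have hJ := G.J_anti' (r + 1) (r + 2) (by omega) (by omega)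
  have g0 := G.gap_nonneg r (by omega)
  have g1 := G.gap_nonneg (r + 1) (by omega)
  have g2 := G.gap_nonneg (r + 2) (by omega)
  have g3 := G.gap_nonneg (r + 3) (by omega)
  have hev := G.c_even hDe (r + 1) (by omega)
  simp only [show r + 1 + 1 = r + 2 by omega, show r + 1 + 2 = r + 3 by omega,
    show r + 1 + 3 = r + 4 by omega, show r + 2 + 1 = r + 3 by omega,
    show r + 3 + 1 = r + 4 by omega, show r + 1 + D = r + D + 1 by omega] at *
  have mZ : G.x (r + 3) ≤ G.x (r + D + 1) := G.mono _ _ (by omega) (by omega)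
  have mZ' : G.x (r + D) ≤ G.x (r + D + 1) := G.mono _ _ (by omega) (by omega)
  have p0 : (0 : ℝ) ≤ (G.pass (r + 1) : ℝ) := Nat.cast_nonneg _
  have p2 : (0 : ℝ) ≤ (G.pass (r + 2) : ℝ) := Nat.cast_nonneg _
  have p3 : (0 : ℝ) ≤ (G.pass (r + 3) : ℝ) := Nat.cast_nonneg _
  set c := G.c (r + 1) with hc
  set d := G.E (r + 1) (r + 2) with hd
  set c1 := G.c (r + 2) with hc1
  have hpass : (G.pass (r + 2) : ℝ) = (c : ℝ) - (d : ℝ) := by
    have : (c : ℝ) = (d : ℝ) + (G.pass (r + 2) : ℝ) := by exact_mod_cast e1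
    linarith
  have u1 := mul_nonneg p0 g0
  have u2 := mul_nonneg p3 g3
  have u3 := mul_nonneg p2 g2
  rw [hpass] at t1 t2 u3
  set γ0 := G.x (r + 2) - G.x (r + 1) with hγ0
  set g := G.x (r + 3) - G.x (r + 2) with hg
  set Y := G.x (r + D + 1) - (G.x (r + 2) + G.x (r + 3)) / 2 with hY
  have hY0 : 0 ≤ Y := by rw [hY]; linarith
  have h1 : (c : ℝ) * γ0 + ((c : ℝ) - (d : ℝ)) * g ≤ G.J (r + 1) := by linarith
  have h2 : ((c : ℝ) - (d : ℝ)) * γ0 + (c1 : ℝ) * g ≤ G.J (r + 1) := by linarith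
  have h3 : (2 * (D : ℝ) - 2 - (c : ℝ)) * Y ≤ 2 * G.J (r + 1) + g / 2 * (d : ℝ) := pr
  have hdc : d ≤ c := by omega
  have hdc' : (d : ℝ) ≤ (c : ℝ) := by exact_mod_cast hdc
  have h1' : (c : ℝ) * γ0 ≤ G.J (r + 1) := by linarith
  have h2' : (c1 : ℝ) * g ≤ G.J (r + 1) := by
    have := mul_nonneg (sub_nonneg.2 hdc') g1
    linarith
  have e2' : (c1 : ℝ) + 2 * (d : ℝ) = (c : ℝ) + (D : ℝ) := by exact_mod_cast e2
  have main : ((D : ℝ) - 2) * (γ0 + g + 2 * Y) ≤ ((D : ℝ) - 1) * G.J (r + 1) := by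
    rcases hreg with hr | ⟨hr1, hr2, hr3, hr4⟩
    · rcases Nat.lt_or_ge 12 D with hb | hb
      · have a1 : (13 : ℝ) ≤ (D : ℝ) := by exact_mod_cast hb
        have a2 : (4 : ℝ) ≤ (c : ℝ) := by exact_mod_cast h4
        have a3 : (c : ℝ) ≤ (D : ℝ) - 2 := by
          have : c + 2 ≤ D := by omega
          have : (c : ℝ) + 2 ≤ (D : ℝ) := by exact_mod_cast this
          linarith
        have a4 : (4 : ℝ) ≤ (c1 : ℝ) := by exact_mod_cast h5
        exact real_W0_large D c d c1 γ0 g Y (G.J (r + 1)) a1 a2 a3 a4 e2' g1 g2 hY0 h1' h2' h3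
      · exact real_W0_small D c d c1 γ0 g Y (G.J (r + 1)) hD hb hDe hev h4 hr h5 e2 hdc g1 g2 h1 h2 h3
    · have a1 : (10 : ℝ) ≤ (D : ℝ) := by exact_mod_cast hr1
      have a2 : (D : ℝ) ≤ (c : ℝ) := by exact_mod_cast hr2
      have a3 : (c : ℝ) ≤ 2 * (D : ℝ) - 10 := by
        have : (c : ℝ) + 10 ≤ 2 * (D : ℝ) := by exact_mod_cast hr3
        linarith
      have a4 : (D : ℝ) ≤ (c1 : ℝ) := by exact_mod_cast hr4
      exact real_W0_mid D c d c1 γ0 g Y (G.J (r + 1)) a1 a2 a3 a4 e2' g1 g2 hY0 h1' h2' h3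
  have fin : 2 * ((G.x (r + D) + G.x (r + D + 1)) / 2 - (G.x (r + 1) + G.x (r + 2)) / 2) ≤
      γ0 + g + 2 * Y := by
    rw [hγ0, hg, hY]; linarith
  have := mul_le_mul_of_nonneg_left fin (show 0 ≤ (D : ℝ) - 2 by linarith)
  linarith

/-- Case W1, start `r`, `n = D`. -/
theorem caseW1 (r : ℕ) (hD : 6 ≤ D) (hDe : Even D) (h : r + D + 6 ≤ N)
    (h4 : 4 ≤ G.c (r + 1)) (h5 : 4 ≤ G.c (r + 2)) (h6 : D ≤ G.c r) (h7 : G.c (r + 1) ≤ D - 2) :
    2 * ((D : ℝ) - 2) * ((G.x (r + D) + G.x (r + D + 1)) / 2 - (G.x r + G.x (r + 1)) / 2)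
      ≤ (D : ℝ) * G.J r := by
  have hDR : (6 : ℝ) ≤ (D : ℝ) := by exact_mod_cast hD
  have t1 := G.three_gap r (by omega)
  have og := G.one_gap (r + 2) (by omega)
  have pr := G.pair (r + 1) (by omega) (by omega)
  have e1 := G.c_eq_E_pass (r + 1) (by omega)
  have e2 := G.c_succ (r + 1) (by omega)
  have e3 := G.c_eq_pass_up (r + 1)
  have e4 := G.c_eq_E_pass r (by omega)
  have e5 := G.E_up r (by omega)
  have hJ := G.J_anti' r (r + 1) (by omega) (by omega)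
  have hJ2 := G.J_anti' r (r + 2) (by omega) (by omega)
  have g0 := G.gap_nonneg r (by omega)
  have g1 := G.gap_nonneg (r + 1) (by omega)
  have g2 := G.gap_nonneg (r + 2) (by omega)
  have hev := G.c_even hDe (r + 1) (by omega)
  simp only [show r + 1 + 1 = r + 2 by omega, show r + 1 + 2 = r + 3 by omega,
    show r + 2 + 1 = r + 3 by omega, show r + 1 + D = r + D + 1 by omega] at *
  have mZ : G.x (r + 3) ≤ G.x (r + D + 1) := G.mono _ _ (by omega) (by omega)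
  have mZ' : G.x (r + D) ≤ G.x (r + D + 1) := G.mono _ _ (by omega) (by omega)
  set c := G.c (r + 1) with hc
  set d := G.E (r + 1) (r + 2) with hd
  set c1 := G.c (r + 2) with hc1
  have hpass : (G.pass (r + 2) : ℝ) = (c : ℝ) - (d : ℝ) := by
    have : (c : ℝ) = (d : ℝ) + (G.pass (r + 2) : ℝ) := by exact_mod_cast e1
    linarith
  have hh : c ≤ 2 * G.pass (r + 1) := by omega
  have hh' : (c : ℝ) ≤ 2 * (G.pass (r + 1) : ℝ) := by exact_mod_cast hh
  rw [hpass] at t1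
  set γm := G.x (r + 1) - G.x r with hγm
  set γ0 := G.x (r + 2) - G.x (r + 1) with hγ0
  set g := G.x (r + 3) - G.x (r + 2) with hg
  set Y := G.x (r + D + 1) - (G.x (r + 2) + G.x (r + 3)) / 2 with hY
  have hY0 : 0 ≤ Y := by rw [hY]; linarith
  have u1 := mul_nonneg (sub_nonneg.2 hh') g0
  have h1 : (c : ℝ) * (2 * γ0 + γm) + 2 * ((c : ℝ) - (d : ℝ)) * g ≤ 2 * G.J r := by linarith
  have h3 : (2 * (D : ℝ) - 2 - (c : ℝ)) * Y ≤ 2 * G.J r + g / 2 * (d : ℝ) := by linarith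
  have h2 : (c1 : ℝ) * g ≤ G.J r := by linarith
  have hdc : d ≤ c := by omega
  have hdc' : (d : ℝ) ≤ (c : ℝ) := by exact_mod_cast hdc
  have e2' : (c1 : ℝ) + 2 * (d : ℝ) = (c : ℝ) + (D : ℝ) := by exact_mod_cast e2
  have a4 : (4 : ℝ) ≤ (c1 : ℝ) := by exact_mod_cast h5
  have main : ((D : ℝ) - 2) * (γm + 2 * γ0 + g + 2 * Y) ≤ (D : ℝ) * G.J r := by
    rcases Nat.lt_or_ge 5 c with hc6 | hc4
    · have a1 : (8 : ℝ) ≤ (D : ℝ) := by exact_mod_cast (by omega : 8 ≤ D)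
      have a2 : (6 : ℝ) ≤ (c : ℝ) := by exact_mod_cast hc6
      have a3 : (c : ℝ) ≤ (D : ℝ) - 2 := by
        have : c + 2 ≤ D := by omega
        have : (c : ℝ) + 2 ≤ (D : ℝ) := by exact_mod_cast this
        linarith
      exact real_W1_six D c d c1 γm γ0 g Y (G.J r) a1 a2 a3 a4 hdc' g0 g1 g2 hY0 h1 h2 h3
    · have c4 : c = 4 := by
        obtain ⟨k, hk⟩ := hev
        omega
      rw [c4] at h1 h3 e2 e2' hdc hdc'
      push_cast at h1 h3 e2' hdc'
      rcases Nat.lt_or_ge 12 D with hb | hb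
      · have a1 : (14 : ℝ) ≤ (D : ℝ) := by
          have : 14 ≤ D := by
            obtain ⟨k, hk⟩ := hDe
            omega
          exact_mod_cast this
        exact real_W1_four D d c1 γm γ0 g Y (G.J r) a1 e2' hdc' g0 g1 g2 hY0 h1 h2 h3
      · exact real_W1_small D d c1 γm γ0 g Y (G.J r) hD hb hDe h5 e2 hdc g0 g1 g2 h1 h2 h3
  have fin : 2 * ((G.x (r + D) + G.x (r + D + 1)) / 2 - (G.x r + G.x (r + 1)) / 2) ≤
      γm + 2 * γ0 + g + 2 * Y := by
    rw [hγm, hγ0, hg, hY]; linarith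
  have := mul_le_mul_of_nonneg_left fin (show 0 ≤ (D : ℝ) - 2 by linarith)
  linarith

theorem even_step_core (r : ℕ) (hD : 4 ≤ D) (hDe : Even D) (h : r + 2 * D + 6 ≤ N) :
    ∃ n : ℕ, 1 ≤ n ∧ n ≤ D + 2 ∧
      2 * ((D : ℝ) - 2) * ((G.x (r + 1 + n) + G.x (r + 1 + n + 1)) / 2
        - (G.x (r + 1) + G.x (r + 2)) / 2) ≤ (n : ℝ) * G.J (r + 1) := by
  have ev1 := G.c_even hDe (r + 1) (by omega)
  have ev2 := G.c_even hDe (r + 2) (by omega)
  have ev3 := G.c_even hDe (r + 3) (by omega)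
  have po1 := G.c_pos (r + 1) (by omega) (by omega)
  have po2 := G.c_pos (r + 2) (by omega) (by omega)
  have po3 := G.c_pos (r + 3) (by omega) (by omega)
  by_cases hI : G.c (r + 2) = 2
  · refine ⟨D + 1, by omega, by omega, ?_⟩
    have := G.caseI (r + 1) hD (by omega) hI
    simp only [show r + 1 + D + 1 = r + 1 + (D + 1) by omega,
      show r + 1 + D + 2 = r + 1 + (D + 1) + 1 by omega, show r + 1 + 1 = r + 2 by omega] at this
    push_cast
    exact this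
  by_cases hII : G.c (r + 1) = 2
  · refine ⟨D, by omega, by omega, ?_⟩
    exact G.caseII (r + 1) hD (by omega) hII
  by_cases hIII : G.c (r + 3) = 2
  · rcases G.caseIII r hD (by omega) hIII with h1 | h1
    · refine ⟨1, by omega, by omega, ?_⟩
      simpa using h1
    · refine ⟨D + 2, by omega, by omega, ?_⟩
      simp only [show r + 1 + (D + 2) = r + D + 3 by omega, show r + D + 3 + 1 = r + D + 4 by omega]
      push_cast
      exact h1
  by_cases hT : 5 * D ≤ 3 * G.c (r + 1) + G.c (r + 2) + 8 ∧ 5 * D ≤ G.c (r + 1) + 3 * G.c (r + 2) + 8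
  · refine ⟨1, by omega, by omega, ?_⟩
    have := G.caseT r hD (by omega) hT.1 hT.2
    simpa using this
  obtain ⟨k, hk⟩ := hDe
  obtain ⟨k1, hk1⟩ := ev1
  obtain ⟨k2, hk2⟩ := ev2
  obtain ⟨k3, hk3⟩ := ev3
  have hD6 : 6 ≤ D := by omega
  by_cases hW0 : G.c (r + 1) ≤ D - 2
  · refine ⟨D - 1, by omega, by omega, ?_⟩
    have := G.caseW0 r hD6 ⟨k, hk⟩ (by omega) (by omega) (by omega) (Or.inl hW0)
    rw [show r + 1 + (D - 1) = r + D by omega, Nat.cast_sub (by omega)]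
    push_cast
    exact this
  by_cases hW1 : G.c (r + 2) ≤ D - 2
  · refine ⟨D, by omega, by omega, ?_⟩
    have := G.caseW1 (r + 1) hD6 ⟨k, hk⟩ (by omega) (show 4 ≤ G.c (r + 2) by omega)
      (show 4 ≤ G.c (r + 3) by omega) (by omega) hW1
    exact this
  · refine ⟨D - 1, by omega, by omega, ?_⟩
    have := G.caseW0 r hD6 ⟨k, hk⟩ (by omega) (by omega) (by omega)
      (Or.inr ⟨by omega, by omega, by omega, by omega⟩)
    rw [show r + 1 + (D - 1) = r + D by omega, Nat.cast_sub (by omega)]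
    push_cast
    exact this

end Net

theorem evenStep (D : ℕ) (hD : 4 ≤ D) (hDe : Even D) : EvenStep D := by
  intro N G t ht hN
  obtain ⟨r, rfl⟩ : ∃ r, t = r + 1 := ⟨t - 1, by omega⟩
  obtain ⟨n, hn1, hn2, hn⟩ := G.even_step_core r hD hDe (by omega)
  refine ⟨n, hn1, hn2, ?_⟩
  have hDR : (4 : ℝ) ≤ (D : ℝ) := by exact_mod_cast hD
  have hJ := G.J_anti' (r + 1 - 2) (r + 1) (by omega) (by omega)
  have hn0 : (0 : ℝ) ≤ (n : ℝ) := Nat.cast_nonneg _
  have h1 : (n : ℝ) * G.J (r + 1) ≤ (n : ℝ) * G.J (r + 1 - 2) := mul_le_mul_of_nonneg_left hJ hn0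
  have h2 := hn.trans h1
  have h3 : (0 : ℝ) < 2 * ((D : ℝ) - 2) := by linarith
  rw [show (n : ℝ) * (1 / (2 * ((D : ℝ) - 2))) * G.J (r + 1 - 2)
    = ((n : ℝ) * G.J (r + 1 - 2)) / (2 * ((D : ℝ) - 2)) by ring, le_div_iff₀ h3]
  simp only [show r + 1 + 1 = r + 2 by omega]
  linarith

end Pool.Agent.Helper355.MP7348
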