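import Pool.Agent.Helper355.MP7348.Two

set_option autoImplicit false

namespace Pool.Agent.Helper355.MP7348

open Finset

variable {D N : ℕ} (G : Net D N)

namespace Net

/-- number of edges from `j` to `{m, ..., N}` -/
def W (m j : ℕ) : ℕ := ∑ b ∈ Ico m (N + 1), G.A j b

theorem deg_inner (t j : ℕ) (hD : 4 ≤ D) (h : t + D + 2 ≤ N) (h1 : t + 3 ≤ j) (h2 : j < t + D) :
    4 ≤ G.A (t + 1) j + G.A (t + 2) j + G.E t j + G.W (t + D) j := by
  have hdeg := G.deg j (by omega) (by omega)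
  rw [range_eq_Ico, ← sum_Ico_consecutive _ (show 0 ≤ t + 1 by omega) (show t + 1 ≤ N + 1 by omega),
    sum_eq_sum_Ico_succ_bot (a := t + 1) (b := N + 1) (by omega),
    sum_eq_sum_Ico_succ_bot (a := t + 1 + 1) (b := N + 1) (by omega),
    ← sum_Ico_consecutive _ (show t + 1 + 1 + 1 ≤ t + D by omega) (show t + D ≤ N + 1 by omega)] at hdeg
  have e1 : ∑ i ∈ Ico 0 (t + 1), G.A j i = G.E t j := by
    unfold E
    rw [range_eq_Ico]
    exact sum_congr rfl fun a _ => G.symm _ _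
  have e2 : ∑ i ∈ Ico (t + 1 + 1 + 1) (t + D), G.A j i ≤ D - 4 := by
    have hj : j ∈ Ico (t + 1 + 1 + 1) (t + D) := by simp; omega
    rw [← add_sum_erase _ _ hj, G.diag, zero_add]
    calc ∑ i ∈ (Ico (t + 1 + 1 + 1) (t + D)).erase j, G.A j i
        ≤ ∑ i ∈ (Ico (t + 1 + 1 + 1) (t + D)).erase j, 1 := by
          refine sum_le_sum fun i hi => ?_
          simp only [mem_erase, mem_Ico] at hi
          exact G.simple j i (by omega) (by omega)
      _ = D - 4 := by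
          rw [sum_const, card_erase_of_mem hj, Nat.card_Ico]
          simp
          omega
  have e3 := G.symm j (t + 1)
  have e4 := G.symm j (t + 2)
  rw [e1] at hdeg
  unfold W
  simp only [show t + 1 + 1 = t + 2 by omega] at *
  omega

theorem degs_12 (t : ℕ) (hD : 4 ≤ D) (h : t + D + 2 ≤ N) :
    G.E t (t + 1) + G.A (t + 1) (t + 2) + ∑ j ∈ Ico (t + 3) (t + D), G.A (t + 1) j + G.W (t + D) (t + 1) = D ∧
    G.E t (t + 2) + G.A (t + 1) (t + 2) + ∑ j ∈ Ico (t + 3) (t + D), G.A (t + 2) j + G.W (t + D) (t + 2) = D := by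
  have u1 := G.up_split (t + 1) (by omega)
  have u2 := G.E_up (t + 1) (by omega)
  have u3 := G.E_succ t (t + 2)
  have u4 := G.E_up t (by omega)
  have u7 : G.up (t + 2) = ∑ b ∈ Ico (t + 3) (N + 1), G.A (t + 2) b := rfl
  have v1 := sum_Ico_consecutive (fun b => G.A (t + 1) b) (show t + 3 ≤ t + D by omega) (show t + D ≤ N + 1 by omega)
  have v2 := sum_Ico_consecutive (fun b => G.A (t + 2) b) (show t + 3 ≤ t + D by omega) (show t + D ≤ N + 1 by omega)
  simp only [show t + 1 + 1 = t + 2 by omega, show t + 1 + 2 = t + 3 by omega] at *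
  unfold W
  constructor <;> omega

theorem sum_E_le (t : ℕ) (hD : 4 ≤ D) (h : t + D + 2 ≤ N) :
    G.E t (t + 1) + G.E t (t + 2) + ∑ j ∈ Ico (t + 3) (t + D), G.E t j ≤ G.c t := by
  have h1 := G.c_eq_E_pass t (by omega)
  have h2 := G.pass_eq t
  rw [sum_eq_sum_Ico_succ_bot (by omega), ← sum_Ico_consecutive _ (show t + 2 + 1 ≤ t + D by omega)
    (show t + D ≤ N + 1 by omega)] at h2
  simp only [show t + 2 + 1 = t + 3 by omega] at h2
  omega

theorem J_pair1 (t : ℕ) (hD : 4 ≤ D) (h : t + D + 2 ≤ N) :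
    ∑ j ∈ Ico (t + 3) (t + D), ((G.A (t + 1) j : ℝ) * (G.x j - G.x (t + 1)) +
      (G.A (t + 2) j : ℝ) * (G.x j - G.x (t + 2)))
    + (G.W (t + D) (t + 1) : ℝ) * (G.x (t + D) - G.x (t + 1))
    + (G.W (t + D) (t + 2) : ℝ) * (G.x (t + D) - G.x (t + 2)) ≤ G.J t := by
  have h1 := G.J_ge_two t (by omega)
  have h2 := G.J_anti' t (t + 2) (by omega) (by omega)
  rw [← sum_Ico_consecutive (fun b => (G.A (t + 1) b : ℝ) * (G.x b - G.x (t + 1)))
      (show t + 3 ≤ t + D by omega) (show t + D ≤ N + 1 by omega),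
    ← sum_Ico_consecutive (fun b => (G.A (t + 2) b : ℝ) * (G.x b - G.x (t + 2)))
      (show t + 3 ≤ t + D by omega) (show t + D ≤ N + 1 by omega)] at h1
  have w1 := G.col (Ico (t + D) (N + 1)) (t + 1) (G.x (t + D) - G.x (t + 1)) (by
    intro b hb
    simp only [mem_Ico] at hb
    have := G.mono (t + D) b (by omega) (by omega)
    linarith)
  have w2 := G.col (Ico (t + D) (N + 1)) (t + 2) (G.x (t + D) - G.x (t + 2)) (by
    intro b hb
    simp only [mem_Ico] at hb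
    have := G.mono (t + D) b (by omega) (by omega)
    linarith)
  rw [sum_add_distrib]
  unfold W
  linarith

theorem J_pair2 (t : ℕ) (hD : 4 ≤ D) (h : t + D + 2 ≤ N) :
    ∑ j ∈ Ico (t + 3) (t + D), (G.W (t + D) j : ℝ) * (G.x (t + D) - G.x j)
    + (G.W (t + D) (t + 1) : ℝ) * (G.x (t + D) - G.x (t + 1))
    + (G.W (t + D) (t + 2) : ℝ) * (G.x (t + D) - G.x (t + 2)) ≤ G.J t := by
  have h2 := G.J_anti' t (t + D - 1) (by omega) (by omega)
  have h1 : ∑ a ∈ Ico (t + 1) (t + D), (G.W (t + D) a : ℝ) * (G.x (t + D) - G.x a) ≤ G.J (t + D - 1) := by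
    unfold J
    rw [show t + D - 1 + 1 = t + D by omega, range_eq_Ico,
      ← sum_Ico_consecutive _ (show 0 ≤ t + 1 by omega) (show t + 1 ≤ t + D by omega)]
    have : 0 ≤ ∑ a ∈ Ico 0 (t + 1), ∑ b ∈ Ico (t + D) (N + 1), (G.A a b : ℝ) * (G.x b - G.x a) := by
      refine sum_nonneg fun a ha => sum_nonneg fun b hb => ?_
      simp only [mem_Ico] at ha hb
      have := G.mono a b (by omega) (by omega)
      exact mul_nonneg (Nat.cast_nonneg _) (by linarith)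
    have h3 : ∑ a ∈ Ico (t + 1) (t + D), (G.W (t + D) a : ℝ) * (G.x (t + D) - G.x a) ≤
      ∑ a ∈ Ico (t + 1) (t + D), ∑ b ∈ Ico (t + D) (N + 1), (G.A a b : ℝ) * (G.x b - G.x a) := by
      refine sum_le_sum fun a ha => ?_
      exact G.col (Ico (t + D) (N + 1)) a (G.x (t + D) - G.x a) (by
        intro b hb
        simp only [mem_Ico] at hb
        have := G.mono (t + D) b (by omega) (by omega)
        linarith)
    linarith
  rw [sum_eq_sum_Ico_succ_bot (by omega), sum_eq_sum_Ico_succ_bot (by omega)] at h1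
  simp only [show t + 1 + 1 = t + 2 by omega, show t + 2 + 1 = t + 3 by omega] at h1
  linarith

/-- Pair lemma -/
theorem pair (t : ℕ) (hD : 4 ≤ D) (h : t + D + 2 ≤ N) :
    (2 * (D : ℝ) - 2 - (G.c t : ℝ)) * (G.x (t + D) - (G.x (t + 1) + G.x (t + 2)) / 2) ≤
      2 * G.J t + (G.x (t + 2) - G.x (t + 1)) / 2 * (G.E t (t + 1) : ℝ) := by
  have p1 := G.J_pair1 t hD h
  have p2 := G.J_pair2 t hD h
  obtain ⟨d1, d2⟩ := G.degs_12 t hD h
  have hE := G.sum_E_le t hD h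
  have hA := G.simple (t + 1) (t + 2) (by omega) (by omega)
  set X1 := G.x (t + 1) with hX1
  set X2 := G.x (t + 2) with hX2
  set Z := G.x (t + D) with hZ
  set w1 := G.W (t + D) (t + 1) with hw1
  set w2 := G.W (t + D) (t + 2) with hw2
  have m12 : X1 ≤ X2 := G.mono _ _ (by omega) (by omega)
  have m2Z : X2 ≤ Z := G.mono _ _ (by omega) (by omega)
  have key : ∀ j ∈ Ico (t + 3) (t + D),
      ((G.A (t + 1) j : ℝ) + (G.A (t + 2) j : ℝ) - (G.E t j : ℝ)) * (Z - (X1 + X2) / 2)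
        + (X2 - X1) / 2 * ((G.A (t + 1) j : ℝ) - (G.A (t + 2) j : ℝ)) ≤
      ((G.A (t + 1) j : ℝ) * (G.x j - X1) + (G.A (t + 2) j : ℝ) * (G.x j - X2))
        + (G.W (t + D) j : ℝ) * (Z - G.x j) := by
    intro j hj
    simp only [mem_Ico] at hj
    have h4 := G.deg_inner t j hD h (by omega) (by omega)
    have a1 := G.simple (t + 1) j (by omega) (by omega)
    have a2 := G.simple (t + 2) j (by omega) (by omega)
    have hw : G.A (t + 1) j + G.A (t + 2) j ≤ G.W (t + D) j + G.E t j := by omega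
    have hw' : (G.A (t + 1) j : ℝ) + (G.A (t + 2) j : ℝ) ≤ (G.W (t + D) j : ℝ) + (G.E t j : ℝ) := by
      exact_mod_cast hw
    have mj1 : X2 ≤ G.x j := G.mono _ _ (by omega) (by omega)
    have mj2 : G.x j ≤ Z := G.mono _ _ (by omega) (by omega)
    have q1 := mul_nonneg (sub_nonneg.2 hw') (sub_nonneg.2 mj2)
    have q2 : 0 ≤ (G.E t j : ℝ) * (G.x j - (X1 + X2) / 2) :=
      mul_nonneg (Nat.cast_nonneg _) (by linarith)
    nlinarith
  have hsum := sum_le_sum key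
  rw [sum_add_distrib, sum_add_distrib, ← sum_mul, ← mul_sum, sum_sub_distrib, sum_sub_distrib,
    sum_add_distrib] at hsum
  have d1' : (G.E t (t + 1) : ℝ) + (G.A (t + 1) (t + 2) : ℝ) + ∑ j ∈ Ico (t + 3) (t + D), (G.A (t + 1) j : ℝ)
      + (w1 : ℝ) = (D : ℝ) := by exact_mod_cast d1
  have d2' : (G.E t (t + 2) : ℝ) + (G.A (t + 1) (t + 2) : ℝ) + ∑ j ∈ Ico (t + 3) (t + D), (G.A (t + 2) j : ℝ)
      + (w2 : ℝ) = (D : ℝ) := by exact_mod_cast d2
  have hE' : (G.E t (t + 1) : ℝ) + (G.E t (t + 2) : ℝ) + ∑ j ∈ Ico (t + 3) (t + D), (G.E t j : ℝ)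
      ≤ (G.c t : ℝ) := by exact_mod_cast hE
  have hA' : (G.A (t + 1) (t + 2) : ℝ) ≤ 1 := by exact_mod_cast hA
  have hE2 : (0 : ℝ) ≤ (G.E t (t + 2) : ℝ) := Nat.cast_nonneg _
  have hw1' : (0 : ℝ) ≤ (w1 : ℝ) := Nat.cast_nonneg _
  have hw2' : (0 : ℝ) ≤ (w2 : ℝ) := Nat.cast_nonneg _
  set S1 := ∑ j ∈ Ico (t + 3) (t + D), (G.A (t + 1) j : ℝ)
  set S2 := ∑ j ∈ Ico (t + 3) (t + D), (G.A (t + 2) j : ℝ)
  set SE := ∑ j ∈ Ico (t + 3) (t + D), (G.E t j : ℝ)
  set T1 := ∑ j ∈ Ico (t + 3) (t + D), ((G.A (t + 1) j : ℝ) * (G.x j - X1) + (G.A (t + 2) j : ℝ) * (G.x j - X2))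
  set T2 := ∑ j ∈ Ico (t + 3) (t + D), (G.W (t + D) j : ℝ) * (Z - G.x j)
  have hT : ∑ i ∈ Ico (t + 3) (t + D), ((G.A (t + 1) i : ℝ) * (G.x i - X1) + (G.A (t + 2) i : ℝ) * (G.x i - X2)) = T1 := rfl
  rw [sum_add_distrib] at hT
  have hsum' : (S1 + S2 - SE) * (Z - (X1 + X2) / 2) + (X2 - X1) / 2 * (S1 - S2) ≤ T1 + T2 := by
    linarith
  set Y := Z - (X1 + X2) / 2 with hY
  have hY0 : 0 ≤ Y := by rw [hY]; linarith
  have hg0 : 0 ≤ (X2 - X1) / 2 := by linarith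
  have hYg : 0 ≤ Y - (X2 - X1) / 2 := by rw [hY]; linarith
  -- coefficients
  have c1 : S1 = (D : ℝ) - (G.E t (t + 1) : ℝ) - (G.A (t + 1) (t + 2) : ℝ) - w1 := by linarith
  have c2 : S2 = (D : ℝ) - (G.E t (t + 2) : ℝ) - (G.A (t + 1) (t + 2) : ℝ) - w2 := by linarith
  have r1 : Z - X1 = Y + (X2 - X1) / 2 := by rw [hY]; ring
  have r2 : Z - X2 = Y - (X2 - X1) / 2 := by rw [hY]; ring
  rw [r1, r2] at p1 p2
  rw [c1, c2] at hsum'
  have m1 := mul_nonneg (sub_nonneg.2 hE') hY0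
  have m2 := mul_nonneg (sub_nonneg.2 hA') hY0
  have m3 := mul_nonneg hw1' (add_nonneg hY0 hg0)
  have m4 := mul_nonneg hw2' hYg
  have m5 := mul_nonneg hE2 hg0
  nlinarith

end Net

end Pool.Agent.Helper355.MP7348
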