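import Pool.Agent.Helper355.MP7348.Basic

set_option autoImplicit false

namespace Pool.Agent.Helper355.MP7348

open Finset

variable {D N : ℕ} (G : Net D N)

namespace Net

theorem pass_eq (t : ℕ) : G.pass (t + 1) = ∑ b ∈ Ico (t + 2) (N + 1), G.E t b := by
  unfold pass E
  rw [sum_comm]

theorem E_le_pass (t b : ℕ) (h1 : t + 2 ≤ b) (h2 : b ≤ N) : G.E t b ≤ G.pass (t + 1) := by
  rw [G.pass_eq]
  exact single_le_sum (f := fun b => G.E t b) (fun _ _ => Nat.zero_le _) (by simp; omega)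

theorem E_two_le_pass (t : ℕ) (h2 : t + 3 ≤ N) :
    G.E t (t + 2) + G.E t (t + 3) ≤ G.pass (t + 1) := by
  rw [G.pass_eq, sum_eq_sum_Ico_succ_bot (by omega), sum_eq_sum_Ico_succ_bot (by omega)]
  simp only [show t + 2 + 1 = t + 3 by omega]
  omega

theorem E_succ (t j : ℕ) : G.E (t + 1) j = G.E t j + G.A (t + 1) j := by
  unfold E
  rw [sum_range_succ]

/-- if no edge goes from `{0..t}` to `j` the corresponding sum vanishes -/
theorem sum_zero_of_E (t j : ℕ) (h : G.E t j = 0) (r : ℝ) :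
    ∑ a ∈ range (t + 1), (G.A a j : ℝ) * (r - G.x a) = 0 := by
  unfold E at h
  rw [sum_eq_zero_iff] at h
  refine sum_eq_zero fun a ha => ?_
  rw [h a ha]
  simp

/-- if `t+2` has no neighbour in `{0..t}` -/
theorem s2 (t : ℕ) (hD : 4 ≤ D) (h : t + D + 2 ≤ N) (hE : G.E t (t + 2) = 0) :
    (G.x (t + D) + G.x (t + D + 1)) - 2 * G.x (t + 2) ≤ G.x (t + 2) - G.x (t + 1) := by
  have h1 := G.Out_le_Inn (t + 1) (by omega)
  have h2 : G.Inn (t + 1) ≤ G.x (t + 2) - G.x (t + 1) := by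
    unfold Inn
    rw [sum_range_succ, G.sum_zero_of_E t (t + 1 + 1) hE, zero_add]
    have := G.gap_nonneg (t + 1) (by omega)
    have h3 : (G.A (t + 1) (t + 1 + 1) : ℝ) ≤ 1 := by
      exact_mod_cast G.simple (t + 1) (t + 1 + 1) (by omega) (by omega)
    simp only [show t + 1 + 1 = t + 2 by omega] at *
    nlinarith
  have h3 := G.E_up (t + 1) (by omega)
  have h4 := G.E_succ t (t + 2)
  have h5 := G.simple (t + 1) (t + 2) (by omega) (by omega)
  have h6 := G.star_two (t + 2) (D - 1) (by omega) (by omega) (by omega) (by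
    simp only [show t + 1 + 1 = t + 2 by omega] at h3
    omega)
  rw [show t + 2 + (D - 1) = t + D + 1 by omega, show t + D + 1 - 1 = t + D by omega] at h6
  simp only [show t + 1 + 1 = t + 2 by omega] at *
  linarith

theorem Inn_zero (t : ℕ) (hE : G.E t (t + 1) = 0) : G.Inn t = 0 := by
  unfold Inn
  exact G.sum_zero_of_E t (t + 1) hE _

/-- lower bound of the flux by the edges leaving `t+1` and `t+2` -/
theorem J_ge_two (t : ℕ) (h : t + 3 ≤ N) :
    (∑ b ∈ Ico (t + 3) (N + 1), (G.A (t + 1) b : ℝ) * (G.x b - G.x (t + 1))) +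
    (∑ b ∈ Ico (t + 3) (N + 1), (G.A (t + 2) b : ℝ) * (G.x b - G.x (t + 2))) ≤ G.J (t + 2) := by
  unfold J
  rw [sum_range_succ _ (t + 2), sum_range_succ _ (t + 1)]
  have : 0 ≤ ∑ a ∈ range (t + 1), ∑ b ∈ Ico (t + 2 + 1) (N + 1), (G.A a b : ℝ) * (G.x b - G.x a) := by
    refine sum_nonneg fun a ha => sum_nonneg fun b hb => ?_
    simp only [mem_range, mem_Ico] at ha hb
    have := G.mono a b (by omega) (by omega)
    exact mul_nonneg (Nat.cast_nonneg _) (by linarith)
  simp only [show t + 2 + 1 = t + 3 by omega] at *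
  linarith

theorem up_split (v : ℕ) (h : v + 1 ≤ N) :
    G.up v = G.A v (v + 1) + ∑ b ∈ Ico (v + 2) (N + 1), G.A v b := by
  unfold up
  rw [sum_eq_sum_Ico_succ_bot (by omega)]

/-- Lemma L1: the two edges of the 2-cut have distinct upper ends -/
theorem L1 (t : ℕ) (hD : 4 ≤ D) (h : t + D + 2 ≤ N) (hc : G.c t = 2) (hE : G.E t (t + 1) ≤ 1) :
    ((D : ℝ) - 2) * ((G.x (t + D) + G.x (t + D + 1)) / 2 - (G.x (t + 1) + G.x (t + 2)) / 2) ≤ G.J t := by
  have hDR : (4 : ℝ) ≤ (D : ℝ) := by exact_mod_cast hD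
  have hJ0 := G.J_nonneg t
  have hg1 := G.gap_nonneg (t + 1) (by omega)
  simp only [show t + 1 + 1 = t + 2 by omega] at hg1
  have hcs := G.c_succ t (by omega)
  have hcE := G.c_eq_E_pass t (by omega)
  have hup := G.E_up t (by omega)
  rcases Nat.lt_or_ge (G.E t (t + 1)) 1 with h0 | h1
  · have h0' : G.E t (t + 1) = 0 := by omega
    have a1 := G.Out_le_Inn t (by omega)
    rw [G.Inn_zero t h0'] at a1
    have a2 := G.star_two (t + 1) D (by omega) (by omega) (by omega) (by omega)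
    rw [show t + 1 + D = t + D + 1 by omega, show t + D + 1 - 1 = t + D by omega] at a2
    have : (G.x (t + D) + G.x (t + D + 1)) / 2 - (G.x (t + 1) + G.x (t + 2)) / 2 ≤ 0 := by linarith
    nlinarith
  · have hE1 : G.E t (t + 1) = 1 := by omega
    have hc1 : G.c (t + 1) = D := by omega
    have hog := G.one_gap (t + 1) (by omega)
    rw [hc1] at hog
    simp only [show t + 1 + 1 = t + 2 by omega] at hog
    have hJ1 := G.J_anti' t (t + 1) (by omega) (by omega)
    have hE2 := G.E_two_le_pass t (by omega)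
    rcases Nat.lt_or_ge (G.E t (t + 2)) 1 with h2 | h2
    · have b1 := G.s2 t hD h (by omega)
      have : (G.x (t + D) + G.x (t + D + 1)) / 2 - (G.x (t + 1) + G.x (t + 2)) / 2
          ≤ G.x (t + 2) - G.x (t + 1) := by linarith
      nlinarith
    · have hE3 : G.E t (t + 3) = 0 := by omega
      have hE2' : G.E t (t + 2) = 1 := by omega
      have hA12 := G.simple (t + 1) (t + 2) (by omega) (by omega)
      have u1 := G.up_split (t + 1) (by omega)
      have u2 := G.E_up (t + 1) (by omega)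
      have u3 := G.E_succ t (t + 2)
      have u4 := G.E_up (t + 2) (by omega)
      have u5 := G.E_succ (t + 1) (t + 3)
      have u6 := G.E_succ t (t + 3)
      have hA13 := G.simple (t + 1) (t + 3) (by omega) (by omega)
      have hA23 := G.simple (t + 2) (t + 3) (by omega) (by omega)
      have u7 : G.up (t + 2) = ∑ b ∈ Ico (t + 3) (N + 1), G.A (t + 2) b := rfl
      simp only [show t + 1 + 1 = t + 2 by omega, show t + 2 + 1 = t + 3 by omega,
        show t + 1 + 2 = t + 3 by omega] at u1 u2 u4 u5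
      have v1 : D - 2 ≤ ∑ b ∈ Ico (t + 3) (N + 1), G.A (t + 1) b := by omega
      have v2 : D - 2 ≤ ∑ b ∈ Ico (t + 3) (N + 1), G.A (t + 2) b := by omega
      have v3 : D - 2 ≤ G.up (t + 3) := by omega
      have hJ2 := G.J_ge_two t (by omega)
      have hJ2' := G.J_anti' t (t + 2) (by omega) (by omega)
      have w1 := G.col (Ico (t + 3) (N + 1)) (t + 1) (G.x (t + 3) - G.x (t + 1)) (by
        intro b hb
        simp only [mem_Ico] at hb
        have := G.mono (t + 3) b (by omega) (by omega)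
        linarith)
      have w2 := G.col (Ico (t + 3) (N + 1)) (t + 2) (G.x (t + 3) - G.x (t + 2)) (by
        intro b hb
        simp only [mem_Ico] at hb
        have := G.mono (t + 3) b (by omega) (by omega)
        linarith)
      have v1' : (D : ℝ) - 2 ≤ ((∑ b ∈ Ico (t + 3) (N + 1), G.A (t + 1) b : ℕ) : ℝ) := by
        have : ((D - 2 : ℕ) : ℝ) ≤ ((∑ b ∈ Ico (t + 3) (N + 1), G.A (t + 1) b : ℕ) : ℝ) := by
          exact_mod_cast v1
        rw [Nat.cast_sub (by omega)] at this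
        simpa using this
      have v2' : (D : ℝ) - 2 ≤ ((∑ b ∈ Ico (t + 3) (N + 1), G.A (t + 2) b : ℕ) : ℝ) := by
        have : ((D - 2 : ℕ) : ℝ) ≤ ((∑ b ∈ Ico (t + 3) (N + 1), G.A (t + 2) b : ℕ) : ℝ) := by
          exact_mod_cast v2
        rw [Nat.cast_sub (by omega)] at this
        simpa using this
      have g2 := G.gap_nonneg (t + 2) (by omega)
      simp only [show t + 2 + 1 = t + 3 by omega] at g2
      have T1 : ((D : ℝ) - 2) * (2 * G.x (t + 3) - G.x (t + 1) - G.x (t + 2)) ≤ G.J t := by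
        nlinarith [mul_nonneg (sub_nonneg.2 v1') (show 0 ≤ G.x (t + 3) - G.x (t + 1) by linarith),
          mul_nonneg (sub_nonneg.2 v2') g2]
      have hIn : G.Inn (t + 2) ≤ 2 * G.x (t + 3) - G.x (t + 1) - G.x (t + 2) := by
        unfold Inn
        rw [sum_range_succ _ (t + 2), sum_range_succ _ (t + 1)]
        simp only [show t + 2 + 1 = t + 3 by omega]
        rw [G.sum_zero_of_E t (t + 3) hE3, zero_add]
        have e1 : (G.A (t + 1) (t + 3) : ℝ) ≤ 1 := by exact_mod_cast hA13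
        have e2 : (G.A (t + 2) (t + 3) : ℝ) ≤ 1 := by exact_mod_cast hA23
        nlinarith [mul_nonneg (sub_nonneg.2 e1) (show 0 ≤ G.x (t + 3) - G.x (t + 1) by linarith),
          mul_nonneg (sub_nonneg.2 e2) g2]
      have hOI := G.Out_le_Inn (t + 2) (by omega)
      have hst := G.star_two (t + 3) (D - 2) (by omega) (by omega) (by omega) v3
      rw [show t + 3 + (D - 2) = t + D + 1 by omega, show t + D + 1 - 1 = t + D by omega] at hst
      simp only [show t + 2 + 1 = t + 3 by omega] at hOI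
      have fin : (G.x (t + D) + G.x (t + D + 1)) / 2 - (G.x (t + 1) + G.x (t + 2)) / 2 ≤
          2 * G.x (t + 3) - G.x (t + 1) - G.x (t + 2) := by linarith
      have : ((D : ℝ) - 2) * ((G.x (t + D) + G.x (t + D + 1)) / 2 - (G.x (t + 1) + G.x (t + 2)) / 2) ≤
          ((D : ℝ) - 2) * (2 * G.x (t + 3) - G.x (t + 1) - G.x (t + 2)) :=
        mul_le_mul_of_nonneg_left fin (by linarith)
      linarith

/-- Lemma L2 -/
theorem L2 (t : ℕ) (hD : 4 ≤ D) (h : t + D + 2 ≤ N) (hc : G.c t = 2) :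
    2 * ((D : ℝ) - 2) * ((G.x (t + D) + G.x (t + D + 1)) / 2 - G.x (t + 1)) ≤ 3 * G.J t := by
  have hDR : (4 : ℝ) ≤ (D : ℝ) := by exact_mod_cast hD
  have hJ0 := G.J_nonneg t
  have hg1 := G.gap_nonneg (t + 1) (by omega)
  simp only [show t + 1 + 1 = t + 2 by omega] at hg1
  have hcs := G.c_succ t (by omega)
  have hcE := G.c_eq_E_pass t (by omega)
  have hog := G.one_gap (t + 1) (by omega)
  have hJ1 := G.J_anti' t (t + 1) (by omega) (by omega)
  simp only [show t + 1 + 1 = t + 2 by omega] at hog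
  have hc1 : D - 2 ≤ G.c (t + 1) := by omega
  have hc1' : (D : ℝ) - 2 ≤ (G.c (t + 1) : ℝ) := by
    have : ((D - 2 : ℕ) : ℝ) ≤ (G.c (t + 1) : ℝ) := by exact_mod_cast hc1
    rw [Nat.cast_sub (by omega)] at this
    simpa using this
  have hg : ((D : ℝ) - 2) * (G.x (t + 2) - G.x (t + 1)) ≤ G.J t := by nlinarith
  rcases Nat.lt_or_ge 1 (G.E t (t + 1)) with h1 | h1
  · have hE2 := G.E_le_pass t (t + 2) (by omega) (by omega)
    have b1 := G.s2 t hD h (by omega)
    nlinarith
  · have b1 := G.L1 t hD h hc h1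
    linarith

/-- Case II: `c_s = 2` -/
theorem caseII (s : ℕ) (hD : 4 ≤ D) (h : s + D + 2 ≤ N) (hc : G.c s = 2) :
    2 * ((D : ℝ) - 2) * ((G.x (s + D) + G.x (s + D + 1)) / 2 - (G.x s + G.x (s + 1)) / 2)
      ≤ (D : ℝ) * G.J s := by
  have hDR : (4 : ℝ) ≤ (D : ℝ) := by exact_mod_cast hD
  have hJ0 := G.J_nonneg s
  have h2 := G.L2 s hD h hc
  have hog := G.one_gap s (by omega)
  rw [hc] at hog
  push_cast at hog
  have : ((D : ℝ) - 2) * (2 * (G.x (s + 1) - G.x s)) ≤ ((D : ℝ) - 2) * G.J s :=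
    mul_le_mul_of_nonneg_left hog (by linarith)
  nlinarith

/-- auxiliary: if both edges of the 2-cut at `t` start at `t` (`1 ≤ t`) -/
theorem pass0 (r : ℕ) (h : r + 3 ≤ N) (hc : G.c (r + 1) = 2) (hp : G.pass (r + 1) = 0) :
    G.E (r + 1) (r + 2) ≤ 1 ∧
      G.x (r + 2) + G.x (r + 3) - 2 * G.x (r + 1) ≤ G.J (r + 1) := by
  have h1 := G.E_le_pass r (r + 2) (by omega) (by omega)
  have h2 := G.E_succ r (r + 2)
  have h3 := G.simple (r + 1) (r + 2) (by omega) (by omega)
  have h4 : G.E (r + 1) (r + 2) ≤ 1 := by omega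
  refine ⟨h4, ?_⟩
  have h5 := G.c_eq_E_pass (r + 1) (by omega)
  simp only [show r + 1 + 1 = r + 2 by omega] at h5
  have h6 : 1 ≤ G.pass (r + 2) := by omega
  have h7 := G.three_gap r h
  rw [hc, hp] at h7
  have h8 : (1 : ℝ) ≤ (G.pass (r + 2) : ℝ) := by exact_mod_cast h6
  have g := G.gap_nonneg (r + 2) (by omega)
  simp only [show r + 2 + 1 = r + 3 by omega] at g
  push_cast at h7
  nlinarith

/-- Case I: `c_{s+1} = 2` -/
theorem caseI (s : ℕ) (hD : 4 ≤ D) (h : s + D + 3 ≤ N) (hc : G.c (s + 1) = 2) :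
    2 * ((D : ℝ) - 2) * ((G.x (s + D + 1) + G.x (s + D + 2)) / 2 - (G.x s + G.x (s + 1)) / 2)
      ≤ ((D : ℝ) + 1) * G.J s := by
  have hDR : (4 : ℝ) ≤ (D : ℝ) := by exact_mod_cast hD
  have hJ1 := G.J_anti' s (s + 1) (by omega) (by omega)
  have hJ0 := G.J_nonneg (s + 1)
  rcases Nat.lt_or_ge (G.pass (s + 1)) 1 with h0 | h1
  · have hp : G.pass (s + 1) = 0 := by omega
    obtain ⟨e1, e2⟩ := G.pass0 s (by omega) hc hp
    have l1 := G.L1 (s + 1) hD (by omega) hc e1
    have c1 := G.c_succ s (by omega)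
    have c2 := G.c_eq_pass_up (s + 1)
    have c3 := G.E_up s (by omega)
    have c4 : G.c s = D - 2 := by omega
    have hog := G.one_gap s (by omega)
    rw [c4, Nat.cast_sub (by omega)] at hog
    simp only [show s + 1 + D = s + D + 1 by omega, show s + D + 1 + 1 = s + D + 2 by omega,
      show s + 1 + 1 = s + 2 by omega, show s + 1 + 2 = s + 3 by omega] at l1
    push_cast at hog
    have : ((D : ℝ) - 2) * (G.x (s + 2) + G.x (s + 3) - 2 * G.x (s + 1)) ≤ ((D : ℝ) - 2) * G.J (s + 1) :=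
      mul_le_mul_of_nonneg_left e2 (by linarith)
    nlinarith
  · have l2 := G.L2 (s + 1) hD (by omega) hc
    have tg := G.three_gap s (by omega)
    rw [hc] at tg
    have h8 : (1 : ℝ) ≤ (G.pass (s + 1) : ℝ) := by exact_mod_cast h1
    have g0 := G.gap_nonneg s (by omega)
    have g2 := G.gap_nonneg (s + 2) (by omega)
    simp only [show s + 2 + 1 = s + 3 by omega] at g2
    have h9 : (0 : ℝ) ≤ (G.pass (s + 2) : ℝ) := Nat.cast_nonneg _
    push_cast at tg
    have k : 2 * (G.x (s + 2) - G.x (s + 1)) + (G.x (s + 1) - G.x s) ≤ G.J (s + 1) := by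
      nlinarith [mul_nonneg h9 g2, mul_nonneg (sub_nonneg.2 h8) g0]
    simp only [show s + 1 + D = s + D + 1 by omega, show s + D + 1 + 1 = s + D + 2 by omega,
      show s + 1 + 1 = s + 2 by omega] at l2
    have : ((D : ℝ) - 2) * (2 * (G.x (s + 2) - G.x (s + 1)) + (G.x (s + 1) - G.x s)) ≤
      ((D : ℝ) - 2) * G.J (s + 1) := mul_le_mul_of_nonneg_left k (by linarith)
    nlinarith

/-- two gap bound: one step suffices; `s = r + 1` -/
theorem caseT (r : ℕ) (hD : 4 ≤ D) (h : r + 4 ≤ N)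
    (h1 : 5 * D ≤ 3 * G.c (r + 1) + G.c (r + 2) + 8)
    (h2 : 5 * D ≤ G.c (r + 1) + 3 * G.c (r + 2) + 8) :
    2 * ((D : ℝ) - 2) * ((G.x (r + 2) + G.x (r + 3)) / 2 - (G.x (r + 1) + G.x (r + 2)) / 2)
      ≤ G.J (r + 1) := by
  have t1 := G.three_gap r (by omega)
  have t2 := G.three_gap (r + 1) (by omega)
  have e1 := G.c_eq_E_pass (r + 1) (by omega)
  have e2 := G.c_eq_pass_up (r + 2)
  have e3 := G.E_up (r + 1) (by omega)
  have hJ := G.J_anti' (r + 1) (r + 2) (by omega) (by omega)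
  have g0 := G.gap_nonneg r (by omega)
  have g1 := G.gap_nonneg (r + 1) (by omega)
  have g2 := G.gap_nonneg (r + 2) (by omega)
  have g3 := G.gap_nonneg (r + 3) (by omega)
  simp only [show r + 1 + 1 = r + 2 by omega, show r + 1 + 2 = r + 3 by omega,
    show r + 1 + 3 = r + 4 by omega, show r + 2 + 1 = r + 3 by omega,
    show r + 3 + 1 = r + 4 by omega] at *
  have p0 : (0 : ℝ) ≤ (G.pass (r + 1) : ℝ) := Nat.cast_nonneg _
  have p3 : (0 : ℝ) ≤ (G.pass (r + 3) : ℝ) := Nat.cast_nonneg _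
  have k1 : 4 * D ≤ 2 * G.c (r + 1) + 2 * G.pass (r + 2) + 8 := by omega
  have k2 : 4 * D ≤ 2 * G.c (r + 2) + 2 * G.pass (r + 2) + 8 := by omega
  have k1' : 4 * (D : ℝ) ≤ 2 * (G.c (r + 1) : ℝ) + 2 * (G.pass (r + 2) : ℝ) + 8 := by exact_mod_cast k1
  have k2' : 4 * (D : ℝ) ≤ 2 * (G.c (r + 2) : ℝ) + 2 * (G.pass (r + 2) : ℝ) + 8 := by exact_mod_cast k2
  have u1 := mul_nonneg p0 g0
  have u2 := mul_nonneg p3 g3
  have v1 := mul_nonneg (sub_nonneg.2 k1') g1
  have v2 := mul_nonneg (sub_nonneg.2 k2') g2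
  nlinarith

/-- Case III: `c_{s+2} = 2`, `s = r + 1` -/
theorem caseIII (r : ℕ) (hD : 4 ≤ D) (h : r + D + 6 ≤ N) (hc : G.c (r + 3) = 2) :
    2 * ((D : ℝ) - 2) * ((G.x (r + 2) + G.x (r + 3)) / 2 - (G.x (r + 1) + G.x (r + 2)) / 2)
      ≤ G.J (r + 1) ∨
    2 * ((D : ℝ) - 2) * ((G.x (r + D + 3) + G.x (r + D + 4)) / 2 - (G.x (r + 1) + G.x (r + 2)) / 2)
      ≤ ((D : ℝ) + 2) * G.J (r + 1) := by
  have hDR : (4 : ℝ) ≤ (D : ℝ) := by exact_mod_cast hD
  have c1 := G.c_succ (r + 2) (by omega)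
  have c2 := G.c_succ (r + 1) (by omega)
  have p1 := G.c_eq_pass_up (r + 3)
  have p2 := G.c_eq_pass_up (r + 2)
  have q1 := G.E_up (r + 2) (by omega)
  have q2 := G.E_up (r + 1) (by omega)
  have s1 := G.up_split (r + 2) (by omega)
  have s2 := G.simple (r + 2) (r + 3) (by omega) (by omega)
  have s3 : ∑ b ∈ Ico (r + 4) (N + 1), G.A (r + 2) b ≤ G.pass (r + 3) := by
    unfold pass
    exact single_le_sum (f := fun a => ∑ b ∈ Ico (r + 3 + 1) (N + 1), G.A a b)
      (fun _ _ => Nat.zero_le _) (by simp)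
  simp only [show r + 2 + 1 = r + 3 by omega, show r + 1 + 1 = r + 2 by omega,
    show r + 2 + 2 = r + 4 by omega] at *
  rcases Nat.lt_or_ge (G.up (r + 3)) 2 with hu | hu
  · left
    exact G.caseT r hD (by omega) (by omega) (by omega)
  · right
    have hp : G.pass (r + 3) = 0 := by omega
    have e0 := G.pass0 (r + 2) (by omega) (by simpa using hc) (by simpa using hp)
    obtain ⟨e1, e2⟩ := e0
    simp only [show r + 2 + 1 = r + 3 by omega, show r + 2 + 2 = r + 4 by omega,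
      show r + 2 + 3 = r + 5 by omega] at e1 e2
    have l1 := G.L1 (r + 3) hD (by omega) hc (by simpa using e1)
    simp only [show r + 3 + D = r + D + 3 by omega, show r + D + 3 + 1 = r + D + 4 by omega,
      show r + 3 + 1 = r + 4 by omega, show r + 3 + 2 = r + 5 by omega] at l1
    have cc : G.c (r + 2) = D - 2 := by omega
    have pp : D - 3 ≤ G.pass (r + 2) := by omega
    have tg := G.three_gap (r + 1) (by omega)
    simp only [show r + 1 + 1 = r + 2 by omega, show r + 1 + 2 = r + 3 by omega,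
      show r + 1 + 3 = r + 4 by omega] at tg
    rw [hp, cc, Nat.cast_sub (by omega)] at tg
    have pp' : (D : ℝ) - 3 ≤ (G.pass (r + 2) : ℝ) := by
      have : ((D - 3 : ℕ) : ℝ) ≤ (G.pass (r + 2) : ℝ) := by exact_mod_cast pp
      rw [Nat.cast_sub (by omega)] at this
      simpa using this
    have g1 := G.gap_nonneg (r + 1) (by omega)
    have hJ2 := G.J_anti' (r + 1) (r + 2) (by omega) (by omega)
    have hJ3 := G.J_anti' (r + 1) (r + 3) (by omega) (by omega)
    simp only [show r + 1 + 1 = r + 2 by omega] at g1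
    push_cast at tg
    have m1 := mul_nonneg (sub_nonneg.2 pp') g1
    have m2 : ((D : ℝ) - 2) * (G.x (r + 4) + G.x (r + 5) - 2 * G.x (r + 3)) ≤ ((D : ℝ) - 2) * G.J (r + 3) :=
      mul_le_mul_of_nonneg_left e2 (by linarith)
    have m3 : ((D : ℝ) - 2) * G.J (r + 3) ≤ ((D : ℝ) - 2) * G.J (r + 1) :=
      mul_le_mul_of_nonneg_left hJ3 (by linarith)
    nlinarith

end Net

end Pool.Agent.Helper355.MP7348
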